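import Pool.Agent.W170.Z3.Stm

/-!
Task C2: p-adic size of the linear form for medium and large primes.
-/

open Polynomial Pool.Agent.H337R2 Pool.Agent.W170.Z3

namespace Pool.Agent.W368.Z3

noncomputable section

lemma C2_int {p : ℕ} [Fact p.Prime] {q : ℕ} {u : ℚ} (hu : QI q u) : padicNorm p ((q : ℚ) * u) ≤ 1 := by
  obtain ⟨z, hz⟩ := hu.2
  rw [hz]
  exact padicNorm.of_int z

lemma C2_mul1 {p : ℕ} [Fact p.Prime] {v x W : ℚ} (hv : padicNorm p v ≤ 1)
    (hx : padicNorm p x ≤ W) : padicNorm p (v * x) ≤ W := by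
  rw [padicNorm.mul]
  calc _ ≤ 1 * W := mul_le_mul hv hx (padicNorm.nonneg _) zero_le_one
    _ = W := one_mul W

theorem C2_of (h1 : StC1) (h2 : StC1i) : StC2 := by
  intro n p _ hn hp2 q x hx E W hW A hA hE hE1 h
  have hpp : 0 < p := (Fact.out : p.Prime).pos
  have hp0 : (p : ℚ) ≠ 0 := by exact_mod_cast hpp.ne'
  have hp1 : (1 : ℚ) ≤ p := by exact_mod_cast hpp
  have hpz : ∀ z : ℤ, (0 : ℚ) ≤ (p : ℚ) ^ z := fun z => zpow_nonneg (by positivity) z
  have key : ∀ i j : ℕ, j ≤ i + 1 → ∀ k ∈ sF n,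
      padicNorm p (pa (sF n) mF (PF n * E) k i) ≤ W ∧
      padicNorm p (pa (sF n) mF (PF n * E) k i) * padicNorm p (hs j (k - 4 * n - 1)) ≤ W := by
    intro i j hij k hk
    have hkI := Finset.mem_Icc.1 hk
    rcases h k hk with h3 | ⟨hc, hlt, h4⟩
    · have hpa := h1 hn hp2 E hk (A k) (hA k) (hE k hk) i
      constructor
      · refine hpa.trans (le_trans ?_ h3)
        apply mul_le_mul_of_nonneg_right _ (hA k)
        apply zpow_le_zpow_right₀ hp1
        have : (0 : ℤ) ≤ i := by positivity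
        linarith
      · have h4 := hs_norm_med (p := p) j (k - 4 * n - 1) (by omega)
        refine (mul_le_mul hpa h4 (padicNorm.nonneg _)
          (mul_nonneg (hpz _) (hA k))).trans (le_trans ?_ h3)
        rw [← zpow_natCast (p : ℚ) j, mul_right_comm, ← zpow_add₀ hp0]
        apply mul_le_mul_of_nonneg_right _ (hA k)
        apply zpow_le_zpow_right₀ hp1
        have : (j : ℤ) ≤ i + 1 := by exact_mod_cast hij
        linarith
    · have hpa : padicNorm p (pa (sF n) mF (PF n * E) k i) ≤ W := by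
        refine (h2 hn E hk 1 zero_le_one (hE1 k hk) i h4).trans ?_
        rw [mul_one]
        exact hc
      refine ⟨hpa, ?_⟩
      have h5 := hs_norm_small (p := p) j (k - 4 * n - 1) (by omega)
      calc _ ≤ W * 1 := mul_le_mul hpa h5 (padicNorm.nonneg _) hW
        _ = W := mul_one W
  have hnat : ∀ m : ℕ, padicNorm p (m : ℚ) ≤ 1 := fun m => padicNorm.of_nat m
  have h2' : padicNorm p (2 : ℚ) ≤ 1 := by exact_mod_cast hnat 2
  have e : (q : ℚ) * xf n x (PF n * E) = (2 * ((q : ℚ) * x)) * rho n (PF n * E) -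
      (q : ℚ) * h3 n (PF n * E) := by
    unfold xf
    ring
  rw [e]
  refine padicNorm.sub.trans (max_le ?_ ?_)
  · refine C2_mul1 (C2_mul1 h2' (C2_int hx)) ?_
    unfold rho
    apply padicNorm.sum_le' _ hW
    intro k hk
    exact (key 2 0 (by omega) k hk).1
  · refine C2_mul1 (hnat q) ?_
    unfold h3
    apply padicNorm.sum_le' _ hW
    intro k hk
    refine padicNorm.nonarchimedean.trans (max_le ?_ ?_)
    · rw [mul_assoc]
      refine C2_mul1 h2' ?_
      rw [padicNorm.mul]
      exact (key 2 3 (by omega) k hk).2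
    · rw [padicNorm.mul]
      exact (key 1 2 (by omega) k hk).2

end

end Pool.Agent.W368.Z3
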